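import Mathlib

/-!
# Octahedra in a quadratic space of dimension five
-/

set_option autoImplicit false

namespace Pool.Agent.Helper808_Box

variable {F : Type} [Field F]

/-- The determinant of the first two coordinates. -/
def D (x y : F × F × F) : F := x.1 * y.2.1 - x.2.1 * y.1

/-- The determinant of three vectors. -/
def Dt (x y z : F × F × F) : F := x.2.2 * D y z + y.2.2 * D z x + z.2.2 * D x y

/-- The ternary relation. -/
def T (ν : F) (x y z : F × F × F) : Prop :=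
  D x y ≠ 0 ∧ D y z ≠ 0 ∧ D z x ≠ 0 ∧ ν * (D x y ^ 2 + D y z ^ 2 + D z x ^ 2) + Dt x y z ^ 2 = 0

/-- The bilinear form on the space of dimension five. -/
def B (v w : (F × F) × (F × F × F)) : F :=
  v.1.1 * w.2.1 + v.1.2 * w.2.2.1 + w.1.1 * v.2.1 + w.1.2 * v.2.2.1 - v.2.2.2 * w.2.2.2

theorem B_comm (v w : (F × F) × (F × F × F)) : B v w = B w v := by unfold B; ring

theorem B_add (u v w : (F × F) × (F × F × F)) : B u (v + w) = B u v + B u w := by
  unfold B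
  simp only [Prod.fst_add, Prod.snd_add]
  ring

theorem B_smul (a : F) (u v : (F × F) × (F × F × F)) : B u (a • v) = a * B u v := by
  unfold B
  simp only [Prod.smul_fst, Prod.smul_snd, smul_eq_mul]
  ring

theorem key_id (v₁ v₂ v₃ : (F × F) × (F × F × F)) :
    D v₂.2 v₃.2 ^ 2 * B v₁ v₁ + D v₃.2 v₁.2 ^ 2 * B v₂ v₂ + D v₁.2 v₂.2 ^ 2 * B v₃ v₃ +
      2 * D v₂.2 v₃.2 * D v₃.2 v₁.2 * B v₁ v₂ + 2 * D v₃.2 v₁.2 * D v₁.2 v₂.2 * B v₂ v₃ +
      2 * D v₂.2 v₃.2 * D v₁.2 v₂.2 * B v₁ v₃ = - Dt v₁.2 v₂.2 v₃.2 ^ 2 := by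
  obtain ⟨⟨p₁, q₁⟩, r₁, s₁, e₁⟩ := v₁
  obtain ⟨⟨p₂, q₂⟩, r₂, s₂, e₂⟩ := v₂
  obtain ⟨⟨p₃, q₃⟩, r₃, s₃, e₃⟩ := v₃
  simp only [D, Dt, B]
  ring

theorem D_swap (x y : F × F × F) : D y x = - D x y := by unfold D; ring

theorem T_rot {ν : F} {x y z : F × F × F} (h : T ν x y z) : T ν y z x := by
  obtain ⟨h1, h2, h3, h4⟩ := h
  refine ⟨h2, h3, h1, ?_⟩
  have e : Dt y z x = Dt x y z := by unfold Dt; ring
  rw [e, ← h4]; ring

theorem T_swap {ν : F} {x y z : F × F × F} (h : T ν x y z) : T ν y x z := by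
  obtain ⟨h1, h2, h3, h4⟩ := h
  refine ⟨by rw [D_swap]; exact neg_ne_zero.2 h1, by rw [D_swap]; exact neg_ne_zero.2 h3,
    by rw [D_swap]; exact neg_ne_zero.2 h2, ?_⟩
  have e : Dt y x z = - Dt x y z := by
    unfold Dt; rw [D_swap x y, D_swap y z, D_swap z x]; ring
  rw [e, D_swap x y, D_swap y z, D_swap z x, ← h4]; ring

theorem D_neg (x y : F × F × F) : D (-x) y = - D x y := by
  unfold D; simp only [Prod.fst_neg, Prod.snd_neg]; ring

theorem D_neg' (x y : F × F × F) : D x (-y) = - D x y := by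
  unfold D; simp only [Prod.fst_neg, Prod.snd_neg]; ring

theorem T_neg {ν : F} {x y z : F × F × F} (h : T ν x y z) : T ν (-x) y z := by
  obtain ⟨h1, h2, h3, h4⟩ := h
  refine ⟨by rw [D_neg]; exact neg_ne_zero.2 h1, h2, by rw [D_neg']; exact neg_ne_zero.2 h3, ?_⟩
  have e : Dt (-x) y z = - Dt x y z := by
    unfold Dt; rw [D_neg, D_neg']; simp only [Prod.snd_neg]; ring
  rw [e, D_neg, D_neg', ← h4]; ring

/-- The third orthogonality. -/
theorem third {ν : F} (h2 : (2 : F) ≠ 0) {v₁ v₂ v₃ : (F × F) × (F × F × F)}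
    (hT : T ν v₁.2 v₂.2 v₃.2) (n1 : B v₁ v₁ = ν) (n2 : B v₂ v₂ = ν) (n3 : B v₃ v₃ = ν)
    (h12 : B v₁ v₂ = 0) (h23 : B v₂ v₃ = 0) : B v₁ v₃ = 0 := by
  obtain ⟨t1, t2, t3, t4⟩ := hT
  have h := key_id v₁ v₂ v₃
  rw [n1, n2, n3, h12, h23] at h
  have h' : 2 * D v₂.2 v₃.2 * D v₁.2 v₂.2 * B v₁ v₃ = 0 := by linear_combination h - t4
  have h3 : 2 * D v₂.2 v₃.2 * D v₁.2 v₂.2 ≠ 0 := mul_ne_zero (mul_ne_zero h2 t2) t1
  exact (mul_eq_zero.1 h').resolve_left h3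

/-- Lifts exist. -/
theorem lift {x y : F × F × F} (h2 : (2 : F) ≠ 0) (hD : D x y ≠ 0) (ν c : F) :
    ∃ p : F × F, B (p, x) (p, x) = ν ∧ p.1 * y.1 + p.2 * y.2.1 = c := by
  refine ⟨(((ν + x.2.2 ^ 2) / 2 * y.2.1 - c * x.2.1) / D x y,
    (c * x.1 - (ν + x.2.2 ^ 2) / 2 * y.1) / D x y), ?_, ?_⟩
  · simp only [B]
    field_simp
    unfold D at *
    ring
  · simp only
    field_simp
    unfold D
    ring

theorem lift' {x : F × F × F} {v : (F × F) × (F × F × F)} (h2 : (2 : F) ≠ 0) (hD : D x v.2 ≠ 0)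
    (ν : F) : ∃ w : (F × F) × (F × F × F), w.2 = x ∧ B w w = ν ∧ B v w = 0 := by
  obtain ⟨p, h3, h4⟩ := lift h2 hD ν (-(v.1.1 * x.1 + v.1.2 * x.2.1 - v.2.2.2 * x.2.2))
  refine ⟨(p, x), rfl, h3, ?_⟩
  unfold B
  simp only
  linear_combination h4

/-- There is no isotropic vector orthogonal to three orthogonal vectors of the same non-square
norm. -/
theorem frame {ν ι : F} (hν : ¬ IsSquare ν) (hι : ι ^ 2 = -1) (h2 : (2 : F) ≠ 0)
    {a b c u : (F × F) × (F × F × F)}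
    (na : B a a = ν) (nb : B b b = ν) (nc : B c c = ν) (nu : B u u = 0)
    (hau : B a u = 0) (hbu : B b u = 0) (hcu : B c u = 0) (hab : B a b = 0) (hbc : B b c = 0)
    (hac : B a c = 0) (dab : D a.2 b.2 ≠ 0) : u = 0 := by
  have hν0 : ν ≠ 0 := by rintro rfl; exact hν (IsSquare.zero)
  -- squares
  have sq : ∀ s t : F, t ^ 2 = - ν * s ^ 2 → s = 0 := by
    intro s t h
    by_contra hs
    apply hν
    refine ⟨ι * t / s, ?_⟩
    field_simp
    linear_combination h - t ^ 2 * hι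
  have z2 : Dt a.2 b.2 u.2 ^ 2 = - ν * (D a.2 u.2 ^ 2 + D b.2 u.2 ^ 2) := by
    have h := key_id a b u
    rw [na, nb, nu, hab, hau, hbu, D_swap a.2 u.2] at h
    linear_combination h
  have y2 : Dt a.2 c.2 u.2 ^ 2 = - ν * (D a.2 u.2 ^ 2 + D c.2 u.2 ^ 2) := by
    have h := key_id a c u
    rw [na, nc, nu, hac, hau, hcu, D_swap a.2 u.2] at h
    linear_combination h
  have x2 : Dt b.2 c.2 u.2 ^ 2 = - ν * (D b.2 u.2 ^ 2 + D c.2 u.2 ^ 2) := by
    have h := key_id b c u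
    rw [nb, nc, nu, hbc, hbu, hcu, D_swap b.2 u.2] at h
    linear_combination h
  have pl : Dt b.2 c.2 u.2 * D a.2 u.2 - Dt a.2 c.2 u.2 * D b.2 u.2 + Dt a.2 b.2 u.2 * D c.2 u.2 = 0 := by
    unfold Dt D; ring
  set P := D a.2 u.2 with hP
  set Q := D b.2 u.2 with hQ
  set S := D c.2 u.2 with hS
  set x := Dt b.2 c.2 u.2
  set y := Dt a.2 c.2 u.2
  set z := Dt a.2 b.2 u.2
  have hyz : Q * S * (y * z + ν * (Q * S)) = 0 := by
    have : 2 * (Q * S * (y * z + ν * (Q * S))) = 0 := by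
      linear_combination (x * P + (y * Q - z * S)) * pl - P ^ 2 * x2 + Q ^ 2 * y2 + S ^ 2 * z2
    exact (mul_eq_zero.1 this).resolve_left h2
  have hxz : P * S * (x * z - ν * (P * S)) = 0 := by
    have : 2 * (P * S * (x * z - ν * (P * S))) = 0 := by
      linear_combination (x * P + z * S + y * Q) * pl + Q ^ 2 * y2 - P ^ 2 * x2 - S ^ 2 * z2
    exact (mul_eq_zero.1 this).resolve_left h2
  have hxy : P * Q * (x * y + ν * (P * Q)) = 0 := by
    have : 2 * (P * Q * (x * y + ν * (P * Q))) = 0 := by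
      linear_combination (-1 : F) * ((x * P - y * Q) - z * S) * pl + P ^ 2 * x2 + Q ^ 2 * y2 - S ^ 2 * z2
    exact (mul_eq_zero.1 this).resolve_left h2
  have hPQS : P = 0 ∧ Q = 0 ∧ S = 0 := by
    by_cases h0 : P = 0
    · have hS0 : S = 0 := sq S y (by rw [y2, h0]; ring)
      have hQ0 : Q = 0 := sq Q z (by rw [z2, h0]; ring)
      exact ⟨h0, hQ0, hS0⟩
    by_cases h1 : Q = 0
    · exact absurd (sq P z (by rw [z2, h1]; ring)) h0
    by_cases h3 : S = 0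
    · exact absurd (sq P y (by rw [y2, h3]; ring)) h0
    exfalso
    have k1 := (mul_eq_zero.1 hyz).resolve_left (mul_ne_zero h1 h3)
    have k2 := (mul_eq_zero.1 hxz).resolve_left (mul_ne_zero h0 h3)
    have k3 := (mul_eq_zero.1 hxy).resolve_left (mul_ne_zero h0 h1)
    apply hν
    refine ⟨x * y * z / (ν * (P * Q * S)), ?_⟩
    field_simp
    linear_combination (-(x * z * (y * z))) * k3 + (ν * P * Q * (y * z)) * k2 + (ν ^ 2 * P ^ 2 * Q * S) * k1
  obtain ⟨hP0, hQ0, hS0⟩ := hPQS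
  -- the first two coordinates of `u` vanish
  have e1 : D a.2 b.2 * u.2.1 = 0 := by
    have h3 : a.2.1 * u.2.2.1 - a.2.2.1 * u.2.1 = 0 := hP0
    have h4 : b.2.1 * u.2.2.1 - b.2.2.1 * u.2.1 = 0 := hQ0
    unfold D
    linear_combination b.2.1 * h3 - a.2.1 * h4
  have e2 : D a.2 b.2 * u.2.2.1 = 0 := by
    have h3 : a.2.1 * u.2.2.1 - a.2.2.1 * u.2.1 = 0 := hP0
    have h4 : b.2.1 * u.2.2.1 - b.2.2.1 * u.2.1 = 0 := hQ0
    unfold D
    linear_combination (b.2.2.1) * h3 - a.2.2.1 * h4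
  have e1' := (mul_eq_zero.1 e1).resolve_left dab
  have e2' := (mul_eq_zero.1 e2).resolve_left dab
  have e3 : u.2.2.2 = 0 := by
    unfold B at nu
    rw [e1', e2'] at nu
    have : u.2.2.2 * u.2.2.2 = 0 := by linear_combination -nu
    exact mul_self_eq_zero.1 this
  have f1 : u.1.1 * a.2.1 + u.1.2 * a.2.2.1 = 0 := by
    unfold B at hau
    rw [e1', e2', e3] at hau
    linear_combination hau
  have f2 : u.1.1 * b.2.1 + u.1.2 * b.2.2.1 = 0 := by
    unfold B at hbu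
    rw [e1', e2', e3] at hbu
    linear_combination hbu
  have g1 : D a.2 b.2 * u.1.1 = 0 := by
    unfold D
    linear_combination b.2.2.1 * f1 - a.2.2.1 * f2
  have g2 : D a.2 b.2 * u.1.2 = 0 := by
    unfold D
    linear_combination (-b.2.1) * f1 + a.2.1 * f2
  have g1' := (mul_eq_zero.1 g1).resolve_left dab
  have g2' := (mul_eq_zero.1 g2).resolve_left dab
  exact Prod.ext (Prod.ext g1' g2') (Prod.ext e1' (Prod.ext e2' e3))

end Pool.Agent.Helper808_Box
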