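import Mathlib

/-!
# The bound of Erdős for box-free tripartite 3-graphs
-/

set_option autoImplicit false

namespace Pool.Agent.Helper808_Box

open Finset

/-- Double counting. -/
theorem dc {α β : Type} [Fintype α] [Fintype β] [DecidableEq α] [DecidableEq β]
    (S : Finset (α × β)) (K : ℕ)
    (h : ∀ x x' : α, x ≠ x' → (univ.filter fun b => (x, b) ∈ S ∧ (x', b) ∈ S).card ≤ K) :
    S.card ^ 2 ≤ Fintype.card β * (S.card + Fintype.card α ^ 2 * K) := by
  classical
  have hS : S.card = ∑ b : β, ∑ a : α, (if (a, b) ∈ S then 1 else 0) := by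
    rw [Finset.sum_comm, ← Fintype.sum_prod_type', Finset.sum_boole]
    simp
  have hS' : S.card = ∑ a : α, ∑ b : β, (if (a, b) ∈ S then 1 else 0) := by
    rw [hS, Finset.sum_comm]
  have h1 : S.card ^ 2 ≤ Fintype.card β * ∑ b : β, (∑ a : α, (if (a, b) ∈ S then 1 else 0)) ^ 2 := by
    have := sq_sum_le_card_mul_sum_sq (s := (univ : Finset β))
      (f := fun b => ∑ a : α, (if (a, b) ∈ S then 1 else 0))
    rw [← hS] at this
    simpa using this
  refine h1.trans (Nat.mul_le_mul_left _ ?_)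
  have h2 : ∑ b : β, (∑ a : α, (if (a, b) ∈ S then 1 else 0)) ^ 2 =
      ∑ a : α, ∑ a' : α, ∑ b : β, (if (a, b) ∈ S then 1 else 0) * (if (a', b) ∈ S then 1 else 0) := by
    have : ∀ b : β, (∑ a : α, (if (a, b) ∈ S then 1 else 0)) ^ 2 =
        ∑ a : α, ∑ a' : α, (if (a, b) ∈ S then 1 else 0) * (if (a', b) ∈ S then 1 else 0) := by
      intro b
      rw [sq, Finset.sum_mul_sum]
    rw [Finset.sum_congr rfl fun b _ => this b, Finset.sum_comm]
    refine Finset.sum_congr rfl fun a _ => ?_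
    rw [Finset.sum_comm]
  rw [h2]
  have h3 : ∀ a a' : α, ∑ b : β, (if (a, b) ∈ S then 1 else 0) * (if (a', b) ∈ S then 1 else 0) ≤
      (if a' = a then ∑ b : β, (if (a, b) ∈ S then 1 else 0) else 0) + K := by
    intro a a'
    by_cases hh : a' = a
    · subst hh
      rw [if_pos rfl]
      refine le_trans (Finset.sum_le_sum fun b _ => ?_) (Nat.le_add_right _ _)
      split_ifs <;> simp
    · rw [if_neg hh, zero_add]
      refine le_trans (le_of_eq ?_) (h a a' (Ne.symm hh))
      rw [Finset.card_filter]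
      refine Finset.sum_congr rfl fun b _ => ?_
      by_cases h5 : (a, b) ∈ S <;> by_cases h6 : (a', b) ∈ S <;> simp [h5, h6]
  calc _ ≤ ∑ a : α, ∑ a' : α, ((if a' = a then ∑ b : β, (if (a, b) ∈ S then 1 else 0) else 0) + K) :=
        Finset.sum_le_sum fun a _ => Finset.sum_le_sum fun a' _ => h3 a a'
    _ = S.card + Fintype.card α ^ 2 * K := by
      simp only [Finset.sum_add_distrib, Finset.sum_ite_eq', Finset.mem_univ, if_true,
        Finset.sum_const, Finset.card_univ, smul_eq_mul]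
      rw [← hS']
      ring

/-- Graphs without a 4-cycle. -/
theorem c4 {α : Type} [Fintype α] [DecidableEq α] (S : Finset (α × α))
    (h : ¬ ∃ y z : Fin 2 → α, Function.Injective y ∧ Function.Injective z ∧
      ∀ j k, (y j, z k) ∈ S) : S.card ^ 2 ≤ 2 * Fintype.card α ^ 3 := by
  classical
  have h1 := dc S 1 (by
    intro x x' hx
    by_contra hc
    push Not at hc
    obtain ⟨b, hb, b', hb', hbb⟩ := Finset.one_lt_card.1 hc
    simp only [Finset.mem_filter, Finset.mem_univ, true_and] at hb hb'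
    apply h
    refine ⟨![x, x'], ![b, b'], ?_, ?_, ?_⟩
    · intro i j hij
      fin_cases i <;> fin_cases j <;> simp_all
    · intro i j hij
      fin_cases i <;> fin_cases j <;> simp_all
    · intro i j
      fin_cases i <;> fin_cases j <;> simp_all)
  have h2 : S.card ≤ Fintype.card α ^ 2 := by
    refine (Finset.card_le_univ S).trans ?_
    rw [Fintype.card_prod, sq]
  calc S.card ^ 2 ≤ Fintype.card α * (S.card + Fintype.card α ^ 2 * 1) := h1
    _ ≤ Fintype.card α * (Fintype.card α ^ 2 + Fintype.card α ^ 2 * 1) :=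
      Nat.mul_le_mul_left _ (Nat.add_le_add_right h2 _)
    _ = 2 * Fintype.card α ^ 3 := by ring

theorem box_bound {α : Type} [Fintype α] [DecidableEq α] {n : ℕ} (hn : Fintype.card α = n)
    (S : Finset (α × (α × α)))
    (h : ¬ ∃ x y z : Fin 2 → α, Function.Injective x ∧ Function.Injective y ∧
      Function.Injective z ∧ ∀ i j k, (x i, y j, z k) ∈ S) : S.card ^ 4 ≤ 6 * n ^ 11 := by
  classical
  subst hn
  set n := Fintype.card α with hn
  obtain ⟨K, hK1, hK2⟩ : ∃ K : ℕ, K ^ 2 ≤ 2 * n ^ 3 ∧ ∀ x x' : α, x ≠ x' →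
      (univ.filter fun b => (x, b) ∈ S ∧ (x', b) ∈ S).card ≤ K := by
    refine ⟨Nat.sqrt (2 * n ^ 3), by rw [sq]; exact Nat.sqrt_le _, ?_⟩
    intro x x' hx
    rw [Nat.le_sqrt, ← sq]
    apply c4
    rintro ⟨y, z, hy, hz, hh⟩
    apply h
    refine ⟨![x, x'], y, z, ?_, hy, hz, ?_⟩
    · intro i j hij
      fin_cases i <;> fin_cases j <;> simp_all
    · intro i j k
      have := hh j k
      simp only [Finset.mem_filter, Finset.mem_univ, true_and] at this
      fin_cases i
      · exact this.1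
      · exact this.2
  have h1 := dc S K hK2
  rw [← hn, Fintype.card_prod, ← hn] at h1
  have h2 : S.card ≤ n ^ 3 := by
    refine (Finset.card_le_univ S).trans (le_of_eq ?_)
    rw [Fintype.card_prod, Fintype.card_prod, ← hn]; ring
  have h3 : S.card ^ 2 ≤ n ^ 5 + n ^ 4 * K := by
    calc S.card ^ 2 ≤ n * n * (S.card + n ^ 2 * K) := h1
      _ ≤ n * n * (n ^ 3 + n ^ 2 * K) := Nat.mul_le_mul_left _ (Nat.add_le_add_right h2 _)
      _ = n ^ 5 + n ^ 4 * K := by ring
  rcases Nat.eq_zero_or_pos n with h0 | h0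
  · rw [h0] at h2 ⊢
    simp at h2
    simp [h2]
  have h4 : n ^ 10 ≤ n ^ 11 := Nat.pow_le_pow_right h0 (by norm_num)
  calc S.card ^ 4 = (S.card ^ 2) ^ 2 := by ring
    _ ≤ (n ^ 5 + n ^ 4 * K) ^ 2 := Nat.pow_le_pow_left h3 2
    _ ≤ 2 * ((n ^ 5) ^ 2 + (n ^ 4 * K) ^ 2) := by
      nlinarith [sq_nonneg ((n ^ 5 : ℤ) - (n ^ 4 * K : ℤ)), add_sq_le (a := n ^ 5) (b := n ^ 4 * K)]
    _ = 2 * n ^ 10 + 2 * n ^ 8 * K ^ 2 := by ring
    _ ≤ 2 * n ^ 11 + 2 * n ^ 8 * (2 * n ^ 3) := by
      refine Nat.add_le_add (Nat.mul_le_mul_left _ h4) (Nat.mul_le_mul_left _ hK1)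
    _ = 6 * n ^ 11 := by ring

end Pool.Agent.Helper808_Box
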