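import Pool.Agent.Helper808_Box.Alg

/-!
# The ternary relation contains no box
-/

set_option autoImplicit false

namespace Pool.Agent.Helper808_Box

variable {F : Type} [Field F]

theorem B_zero (u : (F × F) × (F × F × F)) : B u 0 = 0 := by
  unfold B; simp

theorem B_neg (u v : (F × F) × (F × F × F)) : B u (-v) = - B u v := by
  have := B_smul (-1) u v
  simpa using this

/-- Two non-proportional vectors of the same norm are independent. -/
theorem indep {ν : F} (hν0 : ν ≠ 0) {v w : (F × F) × (F × F × F)} (nv : B v v = ν)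
    (nw : B w w = ν) (h1 : w.2 ≠ v.2) (h2 : w.2 ≠ -v.2) {s t : F} (h : s • v + t • w = 0) :
    s = 0 ∧ t = 0 := by
  have ht : t = 0 := by
    by_contra ht
    have hw : w = (-(s / t)) • v := by
      have : t • w = (-s) • v := by rw [neg_smul]; exact (neg_eq_of_add_eq_zero_right h).symm
      calc w = t⁻¹ • (t • w) := by rw [smul_smul, inv_mul_cancel₀ ht, one_smul]
        _ = (-(s / t)) • v := by rw [this, smul_smul]; congr 1; ring
    have h3 : (-(s / t)) * ((-(s / t)) * ν) = ν := by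
      have h4 := nw
      rw [hw, B_smul, B_comm, B_smul, nv] at h4
      exact h4
    have h5 : (-(s / t)) ^ 2 = 1 := by
      have : ((-(s / t)) ^ 2 - 1) * ν = 0 := by linear_combination h3
      exact sub_eq_zero.1 ((mul_eq_zero.1 this).resolve_right hν0)
    have h5' : (-(s / t) - 1) * (-(s / t) + 1) = 0 := by linear_combination h5
    have h5'' : -(s / t) = 1 ∨ -(s / t) = -1 := by
      rcases mul_eq_zero.1 h5' with h6 | h6
      · exact Or.inl (sub_eq_zero.1 h6)
      · exact Or.inr (eq_neg_of_add_eq_zero_left h6)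
    rcases h5'' with h6 | h6
    · apply h1; rw [hw, h6, one_smul]
    · apply h2; rw [hw, h6, neg_smul, one_smul]; rfl
  subst ht
  rw [zero_smul, add_zero] at h
  refine ⟨?_, rfl⟩
  by_contra hs
  have hv : v = 0 := (smul_eq_zero.1 h).resolve_left hs
  rw [hv, B_zero] at nv
  exact hν0 nv.symm

theorem no_octa {ν ι : F} (hν : ¬ IsSquare ν) (hι : ι ^ 2 = -1) (h2 : (2 : F) ≠ 0)
    (v : Fin 3 → Fin 2 → (F × F) × (F × F × F)) (hn : ∀ i k, B (v i k) (v i k) = ν)
    (ho : ∀ i j k l, i ≠ j → B (v i k) (v j l) = 0)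
    (hp : ∀ i, (v i 1).2 ≠ (v i 0).2 ∧ (v i 1).2 ≠ -(v i 0).2)
    (hD : D (v 0 0).2 (v 1 0).2 ≠ 0) : False := by
  have hν0 : ν ≠ 0 := by rintro rfl; exact hν (IsSquare.zero)
  have hfr : Module.finrank F ((F × F) × (F × F × F)) = 5 := by simp
  have hdep : ¬ LinearIndependent F (fun x : Fin 3 × Fin 2 => v x.1 x.2) := by
    intro hli
    have := hli.fintype_card_le_finrank
    rw [hfr] at this
    simp at this
  rw [Fintype.not_linearIndependent_iff] at hdep
  obtain ⟨g, hg, ⟨i₀, k₀⟩, hne⟩ := hdep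
  let W : Fin 3 → (F × F) × (F × F × F) := fun i => g (i, 0) • v i 0 + g (i, 1) • v i 1
  have hW : W 0 + W 1 + W 2 = 0 := by
    rw [Fintype.sum_prod_type, Fin.sum_univ_three] at hg
    simp only [Fin.sum_univ_two] at hg
    exact hg
  have hoff : ∀ i j k, j ≠ i → B (v j k) (W i) = 0 := by
    intro i j k hji
    show B (v j k) (g (i, 0) • v i 0 + g (i, 1) • v i 1) = 0
    rw [B_add, B_smul, B_smul, ho _ _ _ _ hji, ho _ _ _ _ hji]
    ring
  have hall : ∀ i j k, B (v j k) (W i) = 0 := by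
    intro i j k
    by_cases hji : j = i
    · subst hji
      have h3 : B (v j k) (W 0 + W 1 + W 2) = 0 := by rw [hW, B_zero]
      rw [B_add, B_add] at h3
      fin_cases j
      · have h4 := hoff 1 0 k (by decide)
        have h5 := hoff 2 0 k (by decide)
        simp only [Fin.zero_eta, Fin.mk_one, Fin.reduceFinMk] at h3 ⊢
        rw [h4, h5] at h3
        simpa using h3
      · have h4 := hoff 0 1 k (by decide)
        have h5 := hoff 2 1 k (by decide)
        simp only [Fin.zero_eta, Fin.mk_one, Fin.reduceFinMk] at h3 ⊢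
        rw [h4, h5] at h3
        simpa using h3
      · have h4 := hoff 0 2 k (by decide)
        have h5 := hoff 1 2 k (by decide)
        simp only [Fin.zero_eta, Fin.mk_one, Fin.reduceFinMk] at h3 ⊢
        rw [h4, h5] at h3
        simpa using h3
    · exact hoff i j k hji
  have hself : ∀ i, B (W i) (W i) = 0 := by
    intro i
    have : B (W i) (g (i, 0) • v i 0 + g (i, 1) • v i 1) = 0 := by
      rw [B_add, B_smul, B_smul, B_comm (W i), B_comm (W i), hall, hall]
      ring
    exact this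
  have hzero : ∀ i, W i = 0 := fun i =>
    frame hν hι h2 (hn 0 0) (hn 1 0) (hn 2 0) (hself i) (hall i 0 0) (hall i 1 0) (hall i 2 0)
      (ho 0 1 0 0 (by decide)) (ho 1 2 0 0 (by decide)) (ho 0 2 0 0 (by decide)) hD
  have h6 := indep hν0 (hn i₀ 0) (hn i₀ 1) (hp i₀).1 (hp i₀).2 (hzero i₀)
  apply hne
  fin_cases k₀
  · exact h6.1
  · exact h6.2

/-- There is no box. -/
theorem no_box {ν ι : F} (hν : ¬ IsSquare ν) (hι : ι ^ 2 = -1) (h2 : (2 : F) ≠ 0)
    (x y z : Fin 2 → F × F × F) (hx : x 1 ≠ x 0 ∧ x 1 ≠ -x 0) (hy : y 1 ≠ y 0 ∧ y 1 ≠ -y 0)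
    (hz : z 1 ≠ z 0 ∧ z 1 ≠ -z 0) (h : ∀ i j k, T ν (x i) (y j) (z k)) : False := by
  obtain ⟨p, hp, -⟩ := lift h2 (h 0 0 0).1 ν 0
  have hb : ∀ j, ∃ w : (F × F) × (F × F × F), w.2 = y j ∧ B w w = ν ∧ B (p, x 0) w = 0 := fun j =>
    lift' (v := (p, x 0)) h2 (by rw [D_swap]; exact neg_ne_zero.2 (h 0 j 0).1) ν
  have hc : ∀ k, ∃ w : (F × F) × (F × F × F), w.2 = z k ∧ B w w = ν ∧ B (p, x 0) w = 0 := fun k =>
    lift' (v := (p, x 0)) h2 (h 0 0 k).2.2.1 ν
  choose vb hb1 hb2 hb3 using hb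
  choose vc hc1 hc2 hc3 using hc
  have hbc : ∀ j k, B (vb j) (vc k) = 0 := fun j k =>
    third (v₂ := (p, x 0)) h2 (by rw [hb1, hc1]; exact T_swap (h 0 j k)) (hb2 j) hp (hc2 k)
      (by rw [B_comm]; exact hb3 j) (hc3 k)
  obtain ⟨va, ha1, ha2, ha3⟩ := lift' (x := x 1) (v := vb 0) h2 (by rw [hb1]; exact (h 1 0 0).1) ν
  have hac : ∀ k, B va (vc k) = 0 := fun k =>
    third (v₂ := vb 0) h2 (by rw [ha1, hb1, hc1]; exact h 1 0 k) ha2 (hb2 0) (hc2 k)
      (by rw [B_comm]; exact ha3) (hbc 0 k)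
  have hab : ∀ j, B va (vb j) = 0 := fun j =>
    third (v₂ := vc 0) h2 (by rw [ha1, hb1, hc1]; exact T_swap (T_rot (T_rot (h 1 j 0)))) ha2 (hc2 0)
      (hb2 j) (hac 0) (by rw [B_comm]; exact hbc j 0)
  refine no_octa hν hι h2 ![![(p, x 0), va], vb, vc] ?_ ?_ ?_ ?_
  · intro i k
    fin_cases i <;> fin_cases k
    · exact hp
    · exact ha2
    · exact hb2 0
    · exact hb2 1
    · exact hc2 0
    · exact hc2 1
  · have key : ∀ i j k l, i < j → B ((![![(p, x 0), va], vb, vc] : Fin 3 → Fin 2 → _) i k)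
        ((![![(p, x 0), va], vb, vc] : Fin 3 → Fin 2 → _) j l) = 0 := by
      intro i j k l hij
      fin_cases i <;> fin_cases j
      · exact absurd hij (by decide)
      · fin_cases k
        · exact hb3 l
        · exact hab l
      · fin_cases k
        · exact hc3 l
        · exact hac l
      · exact absurd hij (by decide)
      · exact absurd hij (by decide)
      · exact hbc k l
      · exact absurd hij (by decide)
      · exact absurd hij (by decide)
      · exact absurd hij (by decide)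
    intro i j k l hij
    rcases lt_or_gt_of_ne hij with h3 | h3
    · exact key i j k l h3
    · rw [B_comm]; exact key j i l k h3
  · intro i
    fin_cases i
    · refine ⟨?_, ?_⟩
      · show va.2 ≠ x 0
        rw [ha1]; exact hx.1
      · show va.2 ≠ - x 0
        rw [ha1]; exact hx.2
    · refine ⟨?_, ?_⟩
      · show (vb 1).2 ≠ (vb 0).2
        rw [hb1, hb1]; exact hy.1
      · show (vb 1).2 ≠ -(vb 0).2
        rw [hb1, hb1]; exact hy.2
    · refine ⟨?_, ?_⟩
      · show (vc 1).2 ≠ (vc 0).2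
        rw [hc1, hc1]; exact hz.1
      · show (vc 1).2 ≠ -(vc 0).2
        rw [hc1, hc1]; exact hz.2
  · show D (x 0) (vb 0).2 ≠ 0
    rw [hb1]; exact (h 0 0 0).1

end Pool.Agent.Helper808_Box
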