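import Pool.Agent.Helper808_Box.Quad
import Pool.Agent.Helper808_Box.NoBox

/-!
# Counting quadruples
-/

set_option autoImplicit false

namespace Pool.Agent.Helper808_Box

open Finset

variable {F : Type} [Field F] [Fintype F] [DecidableEq F]

theorem card_sq_le (c : F) : (univ.filter fun k : F => k ^ 2 = c).card ≤ 2 := by
  by_contra hc
  push Not at hc
  obtain ⟨x, hx, y, hy, z, hz, hxy, hxz, hyz⟩ := Finset.two_lt_card.1 hc
  simp only [Finset.mem_filter, Finset.mem_univ, true_and] at hx hy hz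
  have h1 : (x - y) * (x + y) = 0 := by linear_combination hx - hy
  have h2 : (x - z) * (x + z) = 0 := by linear_combination hx - hz
  have h3 := (mul_eq_zero.1 h1).resolve_left (sub_ne_zero.2 hxy)
  have h4 := (mul_eq_zero.1 h2).resolve_left (sub_ne_zero.2 hxz)
  apply hyz
  linear_combination h3 - h4

/-- The system of equations for the coefficients. -/
def Coef (ν ι γ h k a b c d α β : F) : Prop :=
  ν * (1 + a ^ 2 + b ^ 2) + α ^ 2 = 0 ∧ ν * (1 + c ^ 2 + d ^ 2) + β ^ 2 = 0 ∧
    ν * (a * c + b * d) + α * β = 0 ∧ a ≠ 0 ∧ b ≠ 0 ∧ c ≠ 0 ∧ d ≠ 0 ∧ a * d - b * c = ι * γ ∧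
    a + ι * b = k ∧ α + ι * β = h

open Classical in
/-- The parameters. -/
noncomputable def G3 (ν ι : F) : Finset (F × F × F) :=
  univ.filter fun g => g.1 ≠ 0 ∧ ∃ a b c d α β : F, Coef ν ι g.1 g.2.1 g.2.2 a b c d α β

theorem card_G3 {ν ι : F} (hν : ¬ IsSquare ν) (hι : ι ^ 2 = -1) (h2 : (2 : F) ≠ 0) :
    (Fintype.card F - 1) * ((Fintype.card F - 1) * (Fintype.card F - 9)) ≤ (G3 ν ι).card := by
  classical
  have hk : ∀ γ h : F, γ ≠ 0 → h ≠ 0 → Fintype.card F - 9 ≤
      (univ.filter fun k : F => (γ, h, k) ∈ G3 ν ι).card := by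
    intro γ h hγ hh
    obtain ⟨A, P, hAP⟩ := coef hν hι h2 hγ hh
    set Bad : Finset F := ({0} ∪ univ.filter fun k : F => k ^ 2 = A) ∪
      (univ.filter fun k : F => k ^ 2 = -A) ∪ (univ.filter fun k : F => k ^ 2 = P) ∪
      (univ.filter fun k : F => k ^ 2 = -P) with hBad
    have hb : Bad.card ≤ 9 := by
      have h1 := Finset.card_union_le (({0} ∪ univ.filter fun k : F => k ^ 2 = A) ∪
        (univ.filter fun k : F => k ^ 2 = -A) ∪ (univ.filter fun k : F => k ^ 2 = P))
        (univ.filter fun k : F => k ^ 2 = -P)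
      have h2 := Finset.card_union_le (({0} ∪ univ.filter fun k : F => k ^ 2 = A) ∪
        (univ.filter fun k : F => k ^ 2 = -A)) (univ.filter fun k : F => k ^ 2 = P)
      have h3 := Finset.card_union_le ({0} ∪ univ.filter fun k : F => k ^ 2 = A)
        (univ.filter fun k : F => k ^ 2 = -A)
      have h4 := Finset.card_union_le {0} (univ.filter fun k : F => k ^ 2 = A)
      have h5 := card_sq_le A
      have h6 := card_sq_le (-A)
      have h7 := card_sq_le P
      have h8 := card_sq_le (-P)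
      have h9 : ({0} : Finset F).card = 1 := Finset.card_singleton 0
      rw [← hBad] at h1
      omega
    have hsub : univ \ Bad ⊆ univ.filter fun k : F => (γ, h, k) ∈ G3 ν ι := by
      intro k hk
      rw [Finset.mem_sdiff] at hk
      have hk' := hk.2
      simp only [hBad, Finset.mem_union, Finset.mem_singleton, Finset.mem_filter,
        Finset.mem_univ, true_and, not_or] at hk'
      obtain ⟨⟨⟨⟨k0, k1⟩, k2⟩, k3⟩, k4⟩ := hk'
      rw [Finset.mem_filter]
      refine ⟨Finset.mem_univ _, ?_⟩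
      rw [G3, Finset.mem_filter]
      exact ⟨Finset.mem_univ _, hγ, hAP k k0 k1 k2 k3 k4⟩
    have h3 := Finset.card_le_card hsub
    have h4 : (univ \ Bad).card = Fintype.card F - Bad.card := by
      rw [Finset.card_sdiff_of_subset (Finset.subset_univ _), Finset.card_univ]
    omega
  have h1 : (G3 ν ι).card = ∑ γ : F, ∑ h : F, (univ.filter fun k : F => (γ, h, k) ∈ G3 ν ι).card := by
    have : (G3 ν ι).card = ∑ g : F × F × F, if g ∈ G3 ν ι then 1 else 0 := by
      rw [Finset.sum_boole]; simp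
    rw [this, Fintype.sum_prod_type]
    refine Finset.sum_congr rfl fun γ _ => ?_
    rw [Fintype.sum_prod_type]
    refine Finset.sum_congr rfl fun h _ => ?_
    rw [Finset.card_filter]
  rw [h1]
  calc (Fintype.card F - 1) * ((Fintype.card F - 1) * (Fintype.card F - 9))
      = ∑ γ ∈ (univ : Finset F).erase 0, ∑ h ∈ (univ : Finset F).erase 0, (Fintype.card F - 9) := by
        simp [Finset.card_erase_of_mem, Finset.card_univ]
    _ ≤ ∑ γ ∈ (univ : Finset F).erase 0, ∑ h ∈ (univ : Finset F).erase 0,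
        (univ.filter fun k : F => (γ, h, k) ∈ G3 ν ι).card := by
        refine Finset.sum_le_sum fun γ hγ => Finset.sum_le_sum fun h hh => ?_
        exact hk γ h (Finset.ne_of_mem_erase hγ) (Finset.ne_of_mem_erase hh)
    _ ≤ ∑ γ ∈ (univ : Finset F).erase 0, ∑ h : F,
        (univ.filter fun k : F => (γ, h, k) ∈ G3 ν ι).card := by
        refine Finset.sum_le_sum fun γ _ => ?_
        exact Finset.sum_le_sum_of_subset (Finset.erase_subset _ _)
    _ ≤ _ := Finset.sum_le_sum_of_subset (Finset.erase_subset _ _)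

open Classical in
/-- The good quadruples. -/
noncomputable def Q (ν : F) : Finset ((F × F × F) × (F × F × F) × (F × F × F) × (F × F × F)) :=
  univ.filter fun q => Good ν q

theorem card_Q {ν ι : F} (hν : ¬ IsSquare ν) (hι : ι ^ 2 = -1) (h2 : (2 : F) ≠ 0) :
    (Fintype.card F - 1) * ((Fintype.card F - 1) * (Fintype.card F - 9)) *
      ((Fintype.card F - 1) * ((Fintype.card F - 1) * (Fintype.card F * (Fintype.card F *
        (Fintype.card F * Fintype.card F))))) ≤ (Q ν).card := by
  classical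
  have hι0 : ι ≠ 0 := by
    rintro rfl
    have : (1 : F) = 0 := by linear_combination hι
    exact one_ne_zero this
  have hex : ∀ g ∈ G3 ν ι, ∃ r : (F × F × F) × (F × F × F),
      Coef ν ι g.1 g.2.1 g.2.2 r.1.1 r.1.2.1 r.1.2.2 r.2.1 r.2.2.1 r.2.2.2 := by
    intro g hg
    rw [G3, Finset.mem_filter] at hg
    obtain ⟨-, -, a, b, c, d, α, β, h⟩ := hg
    exact ⟨((a, b, c), (d, α, β)), h⟩
  choose! r hr using hex
  have hg1 : ∀ g ∈ G3 ν ι, g.1 ≠ 0 := fun g hg => by
    rw [G3, Finset.mem_filter] at hg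
    exact hg.2.1
  set S : Finset (F × F × F × F × F × F) := ((univ : Finset F).erase 0) ×ˢ
    (((univ : Finset F).erase 0) ×ˢ (univ : Finset (F × F × F × F))) with hS
  have hScard : S.card = (Fintype.card F - 1) * ((Fintype.card F - 1) * (Fintype.card F *
      (Fintype.card F * (Fintype.card F * Fintype.card F)))) := by
    rw [hS, Finset.card_product, Finset.card_product]
    simp [Finset.card_erase_of_mem, Finset.card_univ, Fintype.card_prod]
  let Φ : (F × F × F) × (F × F × F × F × F × F) →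
      (F × F × F) × (F × F × F) × (F × F × F) × (F × F × F) := fun ω =>
    let a := (r ω.1).1.1
    let b := (r ω.1).1.2.1
    let c := (r ω.1).1.2.2
    let d := (r ω.1).2.1
    let α := (r ω.1).2.2.1
    let β := (r ω.1).2.2.2
    let s := ω.2.1
    let Δ := ω.2.2.1
    let u := ω.2.2.2.1
    let w := ω.2.2.2.2.1
    let e := ω.2.2.2.2.2.1
    let g := ω.2.2.2.2.2.2
    let v := (Δ + u * w) / s
    ((a * s + b * w, a * u + b * v, a * e + b * g + α),
      (c * s + d * w, c * u + d * v, c * e + d * g + β), (s, u, e), (w, v, g))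
  have hmaps : ∀ ω ∈ (G3 ν ι) ×ˢ S, Φ ω ∈ Q ν := by
    rintro ⟨x, s, Δ, u, w, e, g⟩ hω
    rw [Finset.mem_product] at hω
    obtain ⟨h1, h2⟩ := hω
    simp only [hS, Finset.mem_product, Finset.mem_erase, Finset.mem_univ, and_true] at h2
    obtain ⟨E1, E2, E3, ha, hb, hc, hd, hδ, -, -⟩ := hr x h1
    rw [Q, Finset.mem_filter]
    refine ⟨Finset.mem_univ _, ?_⟩
    apply quad E1 E2 E3 ha hb hc hd
    · rw [hδ]
      exact mul_ne_zero hι0 (hg1 x h1)
    · have : s * ((Δ + u * w) / s) - u * w = Δ := by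
        rw [mul_div_cancel₀ _ h2.1]; ring
      rw [this]
      exact h2.2
  have hinj : Set.InjOn Φ (((G3 ν ι) ×ˢ S : Finset _) : Set _) := by
    rintro ⟨x, s, Δ, u, w, e, g⟩ hω ⟨x', s', Δ', u', w', e', g'⟩ hω' heq
    rw [Finset.mem_coe, Finset.mem_product] at hω hω'
    obtain ⟨h1, h2⟩ := hω
    obtain ⟨h1', h2'⟩ := hω'
    simp only [hS, Finset.mem_product, Finset.mem_erase, Finset.mem_univ, and_true] at h2 h2'
    obtain ⟨-, -, -, -, -, -, -, hδ, hk, hh⟩ := hr x h1
    obtain ⟨-, -, -, -, -, -, -, hδ', hk', hh'⟩ := hr x' h1'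
    simp only [Φ, Prod.mk.injEq] at heq
    obtain ⟨⟨q1, q2, q3⟩, ⟨q4, q5, q6⟩, ⟨q7, q8, q9⟩, q10, q11, q12⟩ := heq
    subst q7 q8 q9 q10 q12
    have hΔ : Δ = Δ' := by
      have := congrArg (fun t => s * t) q11
      simp only [mul_div_cancel₀ _ h2.1] at this
      linear_combination this
    subst hΔ
    set v := (Δ + u * w) / s with hv
    have hsv : s * v - u * w = Δ := by
      rw [hv, mul_div_cancel₀ _ h2.1]; ring
    have ha : (r x).1.1 = (r x').1.1 := by
      have : Δ * ((r x).1.1 - (r x').1.1) = 0 := by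
        rw [← hsv]; linear_combination v * q1 - w * q2
      exact sub_eq_zero.1 ((mul_eq_zero.1 this).resolve_left h2.2)
    have hb : (r x).1.2.1 = (r x').1.2.1 := by
      have : Δ * ((r x).1.2.1 - (r x').1.2.1) = 0 := by
        rw [← hsv]; linear_combination s * q2 - u * q1
      exact sub_eq_zero.1 ((mul_eq_zero.1 this).resolve_left h2.2)
    have hc : (r x).1.2.2 = (r x').1.2.2 := by
      have : Δ * ((r x).1.2.2 - (r x').1.2.2) = 0 := by
        rw [← hsv]; linear_combination v * q4 - w * q5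
      exact sub_eq_zero.1 ((mul_eq_zero.1 this).resolve_left h2.2)
    have hd : (r x).2.1 = (r x').2.1 := by
      have : Δ * ((r x).2.1 - (r x').2.1) = 0 := by
        rw [← hsv]; linear_combination s * q5 - u * q4
      exact sub_eq_zero.1 ((mul_eq_zero.1 this).resolve_left h2.2)
    have hα : (r x).2.2.1 = (r x').2.2.1 := by
      rw [ha, hb] at q3
      exact add_left_cancel q3
    have hβ : (r x).2.2.2 = (r x').2.2.2 := by
      rw [hc, hd] at q6
      exact add_left_cancel q6
    rw [ha, hb, hc, hd] at hδ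
    rw [ha, hb] at hk
    rw [hα, hβ] at hh
    have hx1 : x.1 = x'.1 := mul_left_cancel₀ hι0 (hδ.symm.trans hδ')
    have hx2 : x.2.1 = x'.2.1 := hh.symm.trans hh'
    have hx3 : x.2.2 = x'.2.2 := hk.symm.trans hk'
    have hx : x = x' := Prod.ext hx1 (Prod.ext hx2 hx3)
    rw [hx]
  have := Finset.card_le_card_of_injOn Φ hmaps hinj
  rw [Finset.card_product, hScard] at this
  exact (Nat.mul_le_mul_right _ (card_G3 hν hι h2)).trans this

omit [DecidableEq F] in
/-- A choice of signs. -/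
theorem exists_sign : ∃ n : (F × F × F) → (F × F × F), (∀ x, n x = x ∨ n x = -x) ∧
    ∀ x, n (-x) = n x := by
  classical
  let e := Fintype.equivFin (F × F × F)
  refine ⟨fun x => if e x ≤ e (-x) then x else -x, fun x => ?_, fun x => ?_⟩
  · simp only
    split_ifs
    · exact Or.inl rfl
    · exact Or.inr rfl
  · simp only [neg_neg]
    split_ifs with h1 h2 h2
    · exact e.injective (le_antisymm h1 h2)
    · rfl
    · rfl
    · exact absurd (le_of_not_ge h1) h2

omit [Fintype F] [DecidableEq F] in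
theorem T_sign {ν : F} {n : (F × F × F) → (F × F × F)} (hn : ∀ x, n x = x ∨ n x = -x)
    {x y z : F × F × F} (h : T ν x y z) : T ν (n x) (n y) (n z) := by
  have h1 : ∀ x y z : F × F × F, T ν x y z → T ν (n x) y z := by
    intro x y z h
    rcases hn x with h1 | h1
    · rwa [h1]
    · rw [h1]; exact T_neg h
  exact T_rot (h1 _ _ _ (T_rot (h1 _ _ _ (T_rot (h1 _ _ _ h)))))

/-- The family of four-element sets. -/
theorem family {ν ι : F} (hν : ¬ IsSquare ν) (hι : ι ^ 2 = -1) (h2 : (2 : F) ≠ 0) :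
    ∃ H : Finset (Finset (F × F × F)), (Q ν).card ≤ 4096 * H.card ∧
      ¬ ∃ x y z : Fin 2 → F × F × F, x 1 ≠ x 0 ∧ y 1 ≠ y 0 ∧ z 1 ≠ z 0 ∧ (∀ i j, x i ≠ y j) ∧
        (∀ i j, x i ≠ z j) ∧ (∀ i j, y i ≠ z j) ∧
          ∀ i j k, ∃ S ∈ H, x i ∈ S ∧ y j ∈ S ∧ z k ∈ S := by
  classical
  obtain ⟨n, hn, hn'⟩ := exists_sign (F := F)
  have hnn : ∀ x, n (n x) = n x := by
    intro x
    rcases hn x with h | h
    · rw [h, h]
    · rw [h, hn', h]
  let g : (F × F × F) × (F × F × F) × (F × F × F) × (F × F × F) → Finset (F × F × F) :=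
    fun q => {n q.1, n q.2.1, n q.2.2.1, n q.2.2.2}
  refine ⟨(Q ν).image g, ?_, ?_⟩
  · refine Finset.card_le_mul_card_image _ _ ?_
    intro S hS
    obtain ⟨q0, -, hq0⟩ := Finset.mem_image.1 hS
    have hS4 : S.card ≤ 4 := by
      rw [← hq0]; exact Finset.card_le_four
    set W := S ∪ S.image (fun x => -x) with hW
    have hW8 : W.card ≤ 8 := by
      have h1 := Finset.card_union_le S (S.image (fun x => -x))
      have h2 : (S.image (fun x => -x)).card ≤ S.card := Finset.card_image_le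
      rw [← hW] at h1
      omega
    have hmem : ∀ x, n x ∈ S → x ∈ W := by
      intro x hx
      rw [hW, Finset.mem_union]
      rcases hn x with h | h
      · left; rwa [h] at hx
      · right
        rw [Finset.mem_image]
        exact ⟨n x, hx, by rw [h, neg_neg]⟩
    have hsub : (Q ν).filter (fun q => g q = S) ⊆ W ×ˢ (W ×ˢ (W ×ˢ W)) := by
      intro q hq
      have hq2 := (Finset.mem_filter.1 hq).2
      have hq3 : ∀ x, x ∈ ({n q.1, n q.2.1, n q.2.2.1, n q.2.2.2} : Finset (F × F × F)) → x ∈ S := by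
        intro x hx
        rw [← hq2]; exact hx
      simp only [Finset.mem_product]
      refine ⟨hmem _ (hq3 _ ?_), hmem _ (hq3 _ ?_), hmem _ (hq3 _ ?_), hmem _ (hq3 _ ?_)⟩ <;> simp
    calc ((Q ν).filter (fun q => g q = S)).card ≤ (W ×ˢ (W ×ˢ (W ×ˢ W))).card :=
          Finset.card_le_card hsub
      _ = W.card * (W.card * (W.card * W.card)) := by
          rw [Finset.card_product, Finset.card_product, Finset.card_product]
      _ ≤ 8 * (8 * (8 * 8)) :=
          Nat.mul_le_mul hW8 (Nat.mul_le_mul hW8 (Nat.mul_le_mul hW8 hW8))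
      _ = 4096 := by norm_num
  · rintro ⟨x, y, z, hx, hy, hz, hxy, hxz, hyz, h⟩
    have hT : ∀ S ∈ (Q ν).image g, ∀ a ∈ S, ∀ b ∈ S, ∀ c ∈ S, a ≠ b → a ≠ c → b ≠ c →
        T ν a b c := by
      intro S hS a ha b hb c hc hab hac hbc
      obtain ⟨q, hq, hq0⟩ := Finset.mem_image.1 hS
      rw [Q, Finset.mem_filter] at hq
      obtain ⟨-, t1, t2, t3, t4⟩ := hq
      replace t1 := T_sign hn t1
      replace t2 := T_sign hn t2
      replace t3 := T_sign hn t3
      replace t4 := T_sign hn t4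
      have perm : ∀ a b c : F × F × F, T ν a b c →
          T ν a b c ∧ T ν b c a ∧ T ν c a b ∧ T ν b a c ∧ T ν a c b ∧ T ν c b a :=
        fun a b c h => ⟨h, T_rot h, T_rot (T_rot h), T_swap h, T_rot (T_swap h),
          T_rot (T_rot (T_swap h))⟩
      obtain ⟨u1, u2, u3, u4, u5, u6⟩ := perm _ _ _ t1
      obtain ⟨v1, v2, v3, v4, v5, v6⟩ := perm _ _ _ t2
      obtain ⟨w1, w2, w3, w4, w5, w6⟩ := perm _ _ _ t3
      obtain ⟨s1, s2, s3, s4, s5, s6⟩ := perm _ _ _ t4
      rw [← hq0] at ha hb hc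
      simp only [g, Finset.mem_insert, Finset.mem_singleton] at ha hb hc
      rcases ha with rfl | rfl | rfl | rfl <;> rcases hb with rfl | rfl | rfl | rfl <;>
        rcases hc with rfl | rfl | rfl | rfl <;>
        first
        | exact absurd rfl hab
        | exact absurd rfl hac
        | exact absurd rfl hbc
        | assumption
    have hfix : ∀ S ∈ (Q ν).image g, ∀ a ∈ S, n a = a := by
      intro S hS a ha
      obtain ⟨q, hq, hq0⟩ := Finset.mem_image.1 hS
      rw [← hq0] at ha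
      simp only [g, Finset.mem_insert, Finset.mem_singleton] at ha
      rcases ha with rfl | rfl | rfl | rfl <;> exact hnn _
    have hneg : ∀ a b, n a = a → n b = b → b ≠ a → b ≠ -a := by
      intro a b ha hb hab hba
      apply hab
      rw [← hb, hba, hn', ha]
    have hx' : ∀ i, n (x i) = x i := by
      intro i
      obtain ⟨S, hS, h1, -, -⟩ := h i 0 0
      exact hfix S hS _ h1
    have hy' : ∀ i, n (y i) = y i := by
      intro i
      obtain ⟨S, hS, -, h1, -⟩ := h 0 i 0
      exact hfix S hS _ h1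
    have hz' : ∀ i, n (z i) = z i := by
      intro i
      obtain ⟨S, hS, -, -, h1⟩ := h 0 0 i
      exact hfix S hS _ h1
    refine no_box hν hι h2 x y z ⟨hx, hneg _ _ (hx' 0) (hx' 1) hx⟩
      ⟨hy, hneg _ _ (hy' 0) (hy' 1) hy⟩ ⟨hz, hneg _ _ (hz' 0) (hz' 1) hz⟩ ?_
    intro i j k
    obtain ⟨S, hS, h1, h3, h4⟩ := h i j k
    exact hT S hS _ h1 _ h3 _ h4 (hxy i j) (hxz i k) (hyz j k)

end Pool.Agent.Helper808_Box
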