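import Pool.Agent.Helper808_Box.Alg

/-!
# Quadruples of vectors any three of which are related
-/

set_option autoImplicit false

namespace Pool.Agent.Helper808_Box

variable {F : Type} [Field F]

/-- Any three of the four vectors are related. -/
def Good (ν : F) (q : (F × F × F) × (F × F × F) × (F × F × F) × (F × F × F)) : Prop :=
  T ν q.1 q.2.2.1 q.2.2.2 ∧ T ν q.2.1 q.2.2.1 q.2.2.2 ∧ T ν q.1 q.2.1 q.2.2.1 ∧
    T ν q.1 q.2.1 q.2.2.2

theorem quad {ν a b c d α β s u e w v g : F}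
    (E1 : ν * (1 + a ^ 2 + b ^ 2) + α ^ 2 = 0) (E2 : ν * (1 + c ^ 2 + d ^ 2) + β ^ 2 = 0)
    (E3 : ν * (a * c + b * d) + α * β = 0) (ha : a ≠ 0) (hb : b ≠ 0) (hc : c ≠ 0) (hd : d ≠ 0)
    (hδ : a * d - b * c ≠ 0) (hD : s * v - u * w ≠ 0) :
    Good ν ((a * s + b * w, a * u + b * v, a * e + b * g + α),
      (c * s + d * w, c * u + d * v, c * e + d * g + β), (s, u, e), (w, v, g)) := by
  have d13 : D (a * s + b * w, a * u + b * v, a * e + b * g + α) (s, u, e) = -(b * (s * v - u * w)) := by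
    unfold D; ring
  have d34 : D (s, u, e) (w, v, g) = s * v - u * w := by
    unfold D; ring
  have d41 : D (w, v, g) (a * s + b * w, a * u + b * v, a * e + b * g + α) = -(a * (s * v - u * w)) := by
    unfold D; ring
  have d23 : D (c * s + d * w, c * u + d * v, c * e + d * g + β) (s, u, e) = -(d * (s * v - u * w)) := by
    unfold D; ring
  have d42 : D (w, v, g) (c * s + d * w, c * u + d * v, c * e + d * g + β) = -(c * (s * v - u * w)) := by
    unfold D; ring
  have d12 : D (a * s + b * w, a * u + b * v, a * e + b * g + α)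
      (c * s + d * w, c * u + d * v, c * e + d * g + β) = (a * d - b * c) * (s * v - u * w) := by
    unfold D; ring
  have d31 : D (s, u, e) (a * s + b * w, a * u + b * v, a * e + b * g + α) = b * (s * v - u * w) := by
    unfold D; ring
  have d24 : D (c * s + d * w, c * u + d * v, c * e + d * g + β) (w, v, g) = c * (s * v - u * w) := by
    unfold D; ring
  have n13 : -(b * (s * v - u * w)) ≠ 0 := neg_ne_zero.2 (mul_ne_zero hb hD)
  have n41 : -(a * (s * v - u * w)) ≠ 0 := neg_ne_zero.2 (mul_ne_zero ha hD)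
  have n23 : -(d * (s * v - u * w)) ≠ 0 := neg_ne_zero.2 (mul_ne_zero hd hD)
  have n42 : -(c * (s * v - u * w)) ≠ 0 := neg_ne_zero.2 (mul_ne_zero hc hD)
  have n12 : (a * d - b * c) * (s * v - u * w) ≠ 0 := mul_ne_zero hδ hD
  have n31 : b * (s * v - u * w) ≠ 0 := mul_ne_zero hb hD
  have n24 : c * (s * v - u * w) ≠ 0 := mul_ne_zero hc hD
  refine ⟨⟨by simp only [d13]; exact n13, by simp only [d34]; exact hD, by simp only [d41]; exact n41, ?_⟩,
    ⟨by simp only [d23]; exact n23, by simp only [d34]; exact hD, by simp only [d42]; exact n42, ?_⟩,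
    ⟨by simp only [d12]; exact n12, by simp only [d23]; exact n23, by simp only [d31]; exact n31, ?_⟩,
    ⟨by simp only [d12]; exact n12, by simp only [d24]; exact n24, by simp only [d41]; exact n41, ?_⟩⟩
  · simp only [Dt, D]
    linear_combination (s * v - u * w) ^ 2 * E1
  · simp only [Dt, D]
    linear_combination (s * v - u * w) ^ 2 * E2
  · simp only [Dt, D]
    linear_combination (s * v - u * w) ^ 2 * (d ^ 2 * E1 + b ^ 2 * E2 - 2 * b * d * E3)
  · simp only [Dt, D]
    linear_combination (s * v - u * w) ^ 2 * (c ^ 2 * E1 + a ^ 2 * E2 - 2 * a * c * E3)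

/-- Solutions of the three equations. -/
theorem coef {ν ι : F} (hν : ¬ IsSquare ν) (hι : ι ^ 2 = -1) (h2 : (2 : F) ≠ 0) {γ h : F}
    (hγ : γ ≠ 0) (hh : h ≠ 0) :
    ∃ A P : F, ∀ k : F, k ≠ 0 → k ^ 2 ≠ A → k ^ 2 ≠ -A → k ^ 2 ≠ P → k ^ 2 ≠ -P →
      ∃ a b c d α β : F, ν * (1 + a ^ 2 + b ^ 2) + α ^ 2 = 0 ∧ ν * (1 + c ^ 2 + d ^ 2) + β ^ 2 = 0 ∧
        ν * (a * c + b * d) + α * β = 0 ∧ a ≠ 0 ∧ b ≠ 0 ∧ c ≠ 0 ∧ d ≠ 0 ∧ a * d - b * c = ι * γ ∧
        a + ι * b = k ∧ α + ι * β = h := by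
  have hν0 : ν ≠ 0 := by rintro rfl; exact hν (IsSquare.zero)
  have hι0 : ι ≠ 0 := by
    rintro rfl
    have : (1 : F) = 0 := by linear_combination hι
    exact one_ne_zero this
  have h4 : (4 : F) ≠ 0 := by
    have : (4 : F) = 2 * 2 := by norm_num
    rw [this]; exact mul_ne_zero h2 h2
  obtain ⟨m, hm⟩ : ∃ m : F, h * m = ν * (1 + γ ^ 2) := ⟨ν * (1 + γ ^ 2) / h, by field_simp⟩
  obtain ⟨α, hα⟩ : ∃ α : F, 2 * α = h - m := ⟨(h - m) / 2, by field_simp⟩
  obtain ⟨β, hβ⟩ : ∃ β : F, 2 * (ι * β) = h + m := ⟨(h + m) / (2 * ι), by field_simp⟩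
  have hab : α ^ 2 + β ^ 2 = - (ν * (1 + γ ^ 2)) := by
    have : 4 * (α ^ 2 + β ^ 2 + ν * (1 + γ ^ 2)) = 0 := by
      linear_combination (2 * α + h - m) * hα - (2 * (ι * β) + h + m) * hβ + 4 * β ^ 2 * hι - 4 * hm
    have := (mul_eq_zero.1 this).resolve_left h4
    linear_combination this
  obtain ⟨A, hA⟩ : ∃ A : F, ν * A = ν + α ^ 2 := ⟨1 + α ^ 2 / ν, by field_simp⟩
  obtain ⟨C, hC⟩ : ∃ C : F, ν * C = ν + β ^ 2 := ⟨1 + β ^ 2 / ν, by field_simp⟩
  obtain ⟨E, hE⟩ : ∃ E : F, ν * E = α * β := ⟨α * β / ν, by field_simp⟩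
  have nonsq : ∀ t : F, ν + t ^ 2 ≠ 0 := by
    intro t ht
    apply hν
    refine ⟨ι * t, ?_⟩
    linear_combination ht - t ^ 2 * hι
  have hA0 : A ≠ 0 := by
    rintro rfl
    apply nonsq α
    rw [← hA]; ring
  have hC0 : C ≠ 0 := by
    rintro rfl
    apply nonsq β
    rw [← hC]; ring
  have hEg : (E - γ) * (E + γ) = A * C := by
    have : ν ^ 2 * ((E - γ) * (E + γ) - A * C) = 0 := by
      linear_combination (ν * E + α * β) * hE - ν * C * hA - (ν + α ^ 2) * hC - ν * hab
    have := (mul_eq_zero.1 this).resolve_left (pow_ne_zero 2 hν0)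
    linear_combination this
  have hE1 : E - γ ≠ 0 := by
    intro h0
    rw [h0, zero_mul] at hEg
    exact mul_ne_zero hA0 hC0 hEg.symm
  have hE2 : E + γ ≠ 0 := by
    intro h0
    rw [h0, mul_zero] at hEg
    exact mul_ne_zero hA0 hC0 hEg.symm
  refine ⟨A, A * (E - γ) / (E + γ), fun k hk k1 k2 k3 k4 => ?_⟩
  obtain ⟨Y, hY⟩ : ∃ Y : F, k * Y = - A := ⟨- A / k, by field_simp⟩
  obtain ⟨Z, hZ⟩ : ∃ Z : F, A * Z = k * (E + γ) := ⟨k * (E + γ) / A, by field_simp⟩
  obtain ⟨W, hW⟩ : ∃ W : F, k * W = - (E - γ) := ⟨- (E - γ) / k, by field_simp⟩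
  obtain ⟨a, ha⟩ : ∃ a : F, 2 * a = k + Y := ⟨(k + Y) / 2, by field_simp⟩
  obtain ⟨b, hb⟩ : ∃ b : F, 2 * (ι * b) = k - Y := ⟨(k - Y) / (2 * ι), by field_simp⟩
  obtain ⟨c, hc⟩ : ∃ c : F, 2 * c = Z + W := ⟨(Z + W) / 2, by field_simp⟩
  obtain ⟨d, hd⟩ : ∃ d : F, 2 * (ι * d) = Z - W := ⟨(Z - W) / (2 * ι), by field_simp⟩
  have hYZ : Y * Z = - (E + γ) := by
    have : A * k * (Y * Z + (E + γ)) = 0 := by
      linear_combination A * Z * hY - A * hZ
    have := (mul_eq_zero.1 this).resolve_left (mul_ne_zero hA0 hk)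
    linear_combination this
  have hZW : Z * W = - C := by
    have : A * k * (Z * W + C) = 0 := by
      linear_combination A * Z * hW - (E - γ) * hZ - k * hEg
    have := (mul_eq_zero.1 this).resolve_left (mul_ne_zero hA0 hk)
    linear_combination this
  have e1 : a ^ 2 + b ^ 2 = - A := by
    have : 4 * (a ^ 2 + b ^ 2 + A) = 0 := by
      linear_combination (2 * a + k + Y) * ha - (2 * (ι * b) + k - Y) * hb + 4 * b ^ 2 * hι + 4 * hY
    have := (mul_eq_zero.1 this).resolve_left h4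
    linear_combination this
  have e2 : c ^ 2 + d ^ 2 = - C := by
    have : 4 * (c ^ 2 + d ^ 2 + C) = 0 := by
      linear_combination (2 * c + Z + W) * hc - (2 * (ι * d) + Z - W) * hd + 4 * d ^ 2 * hι + 4 * hZW
    have := (mul_eq_zero.1 this).resolve_left h4
    linear_combination this
  have e3 : a * c + b * d = - E := by
    have : 4 * (a * c + b * d + E) = 0 := by
      linear_combination (2 * c) * ha + (k + Y) * hc - (2 * (ι * d)) * hb - (k - Y) * hd +
        4 * b * d * hι + 2 * hW + 2 * hYZ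
    have := (mul_eq_zero.1 this).resolve_left h4
    linear_combination this
  have e4 : a * d - b * c = ι * γ := by
    have : 4 * ι * (a * d - b * c - ι * γ) = 0 := by
      linear_combination (2 * (ι * d)) * ha + (k + Y) * hd - (2 * (ι * b)) * hc - (Z + W) * hb -
        4 * γ * hι - 2 * hW + 2 * hYZ
    have := (mul_eq_zero.1 this).resolve_left (mul_ne_zero h4 hι0)
    linear_combination this
  refine ⟨a, b, c, d, α, β, ?_, ?_, ?_, ?_, ?_, ?_, ?_, e4, ?_, ?_⟩
  · linear_combination ν * e1 - hA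
  · linear_combination ν * e2 - hC
  · linear_combination ν * e3 - hE
  · rintro rfl
    apply k1
    linear_combination -k * ha - hY
  · rintro rfl
    apply k2
    linear_combination -k * hb + hY
  · rintro rfl
    apply k3
    rw [eq_div_iff hE2]
    linear_combination -k * A * hc - k * hZ - A * hW
  · rintro rfl
    apply k4
    rw [← neg_div, eq_div_iff hE2]
    linear_combination -k * A * hd - k * hZ + A * hW
  · have : 2 * (a + ι * b - k) = 0 := by linear_combination ha + hb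
    have := (mul_eq_zero.1 this).resolve_left h2
    linear_combination this
  · have : 2 * (α + ι * β - h) = 0 := by linear_combination hα + hβ
    have := (mul_eq_zero.1 this).resolve_left h2
    linear_combination this

end Pool.Agent.Helper808_Box
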